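import Pool.Agent.Y546.WQ.Stm6
import Pool.Agent.Y546.WQ.Wie

/-!
# Project RT: the action on the powers of the prime above `p`
-/

set_option autoImplicit false

namespace Pool.Agent.Y693.WQ

open Pool.Agent.Y546.WQ NumberField IsDedekindDomain Polynomial

theorem frac {R : Type*} [CommRing R] [IsDedekindDomain R] (P : HeightOneSpectrum R) (b x : R)
    (m : ℕ) (hx : P.intValuation x = WithZero.exp (-(1 : ℤ)))
    (hv : P.intValuation b = WithZero.exp (-(m : ℤ))) :
    ∃ d s : R, d ∉ P.asIdeal ∧ s ∉ P.asIdeal ∧ x ^ m * s = b * d := by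
  have hbm : b ∈ P.asIdeal ^ m := (P.intValuation_le_pow_iff_mem b m).1 hv.le
  have hbm' : b ∉ P.asIdeal ^ (m + 1) := by
    intro h
    have h1 := (P.intValuation_le_pow_iff_mem b (m + 1)).2 h
    rw [hv, WithZero.exp_le_exp] at h1
    push_cast at h1
    omega
  obtain ⟨J, hJ⟩ : P.asIdeal ^ m ∣ Ideal.span {b} := Ideal.dvd_span_singleton.2 hbm
  have hJP : ¬ J ≤ P.asIdeal := by
    intro h
    apply hbm'
    have h1 : Ideal.span {b} ≤ P.asIdeal ^ (m + 1) := by
      rw [hJ, pow_succ]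
      exact Ideal.mul_mono_right h
    exact h1 (Ideal.mem_span_singleton_self b)
  obtain ⟨s, hsJ, hsP⟩ := Set.not_subset.1 hJP
  have hxm : x ∈ P.asIdeal := by
    rw [← P.intValuation_lt_one_iff_mem, hx, ← WithZero.exp_zero, WithZero.exp_lt_exp]
    norm_num
  have h1 : x ^ m * s ∈ Ideal.span {b} := by
    rw [hJ]
    exact Ideal.mul_mem_mul (Ideal.pow_mem_pow hxm m) hsJ
  obtain ⟨d, hd⟩ := Ideal.mem_span_singleton'.1 h1
  refine ⟨d, s, ?_, hsP, by rw [← hd, mul_comm]⟩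
  intro hdP
  have vs : P.intValuation s = 1 := by
    rcases (P.intValuation_le_one s).lt_or_eq with h2 | h2
    · exact absurd ((P.intValuation_lt_one_iff_mem s).1 h2) hsP
    · exact h2
  have vd := (P.intValuation_lt_one_iff_mem d).2 hdP
  have h3 := congrArg P.intValuation hd
  rw [map_mul, map_mul, map_pow, hx, hv, vs, mul_one, ← WithZero.exp_nsmul] at h3
  have h4 : (m • (-(1 : ℤ))) = -(m : ℤ) := by
    rw [nsmul_eq_mul]; ring
  rw [h4] at h3
  have h5 : P.intValuation d = 1 := by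
    apply mul_right_cancel₀ (WithZero.exp_ne_zero (a := -(m : ℤ)))
    rw [h3, one_mul]
  rw [h5] at vd
  exact lt_irrefl _ vd

theorem exists_val {R : Type*} [CommRing R] [IsDedekindDomain R] (P : HeightOneSpectrum R)
    (a : R) (ha : a ≠ 0) : ∃ n : ℕ, P.intValuation a = WithZero.exp (-(n : ℤ)) :=
  ⟨_, P.intValuation_if_neg ha⟩

section

variable {p : ℕ} [Fact p.Prime] {K M : Type} [Field K] [NumberField K] [Field M] [NumberField M]
  [Algebra K M]

/-- the ring isomorphism of the integers induced by `σ t` -/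
noncomputable def rs (c : CycK p K M) (t : (ZMod p)ˣ) : 𝓞 M ≃+* 𝓞 M :=
  RingOfIntegers.mapRingEquiv (c.σ t).toRingEquiv

theorem rs_coe (c : CycK p K M) (t : (ZMod p)ˣ) (x : 𝓞 M) :
    algebraMap (𝓞 M) M (rs c t x) = c.σ t (algebraMap (𝓞 M) M x) := rfl

theorem rs_base (c : CycK p K M) (t : (ZMod p)ˣ) (y : 𝓞 K) :
    rs c t (algebraMap (𝓞 K) (𝓞 M) y) = algebraMap (𝓞 K) (𝓞 M) y := by
  apply RingOfIntegers.coe_injective
  have h : algebraMap (𝓞 M) M (algebraMap (𝓞 K) (𝓞 M) y) = algebraMap K M (y : K) := rfl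
  rw [rs_coe, h]
  exact (c.σ t).commutes _

theorem exists_w (c : CycK p K M) : ∃ w : 𝓞 M, algebraMap (𝓞 M) M w = c.z := by
  have hpp : p.Prime := Fact.out
  have hzint : IsIntegral ℤ c.z := by
    have h1 : c.z ^ p = 1 := c.prim.pow_eq_one
    exact ⟨Polynomial.X ^ p - 1, Polynomial.monic_X_pow_sub_C 1 hpp.ne_zero, by simp [h1]⟩
  exact ⟨⟨c.z, hzint⟩, rfl⟩

/-- the prime above `p` is stable -/
theorem mem_rs (c : CycK p K M) (t : (ZMod p)ˣ) (x : 𝓞 M) (hx : x ∈ c.P0.asIdeal) :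
    rs c t x ∈ c.P0.asIdeal := by
  set Q : HeightOneSpectrum (𝓞 M) :=
    { asIdeal := c.P0.asIdeal.comap (rs c t : 𝓞 M →+* 𝓞 M)
      isPrime := c.P0.isPrime.comap _
      ne_bot := by
        intro h
        apply c.P0.ne_bot
        rw [eq_bot_iff]
        intro y hy
        have h1 : (rs c t).symm y ∈ c.P0.asIdeal.comap (rs c t : 𝓞 M →+* 𝓞 M) := by
          rw [Ideal.mem_comap]
          change rs c t ((rs c t).symm y) ∈ c.P0.asIdeal
          rw [RingEquiv.apply_symm_apply]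
          exact hy
        rw [h, Ideal.mem_bot] at h1
        rw [Ideal.mem_bot]
        have h2 := congrArg (rs c t) h1
        rwa [RingEquiv.apply_symm_apply, map_zero] at h2 } with hQ
  have hmem : ((p : ℕ) : 𝓞 M) ∈ Q.asIdeal := by
    change (rs c t : 𝓞 M →+* 𝓞 M) ((p : ℕ) : 𝓞 M) ∈ c.P0.asIdeal
    rw [map_natCast]
    exact c.mem
  have hQP := c.uniq Q hmem
  have h2 : x ∈ Q.asIdeal := by
    rw [hQP]
    exact hx
  exact h2

theorem mk_rs (c : CycK p K M) (t : (ZMod p)ˣ) (A : 𝓞 M) :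
    Ideal.Quotient.mk c.P0.asIdeal (rs c t A) = Ideal.Quotient.mk c.P0.asIdeal A := by
  obtain ⟨y, hy⟩ := c.res A
  have h1 := mem_rs c t _ hy
  rw [map_sub, rs_base] at h1
  rw [← sub_eq_zero, ← map_sub, Ideal.Quotient.eq_zero_iff_mem]
  have h2 := c.P0.asIdeal.sub_mem h1 hy
  rwa [sub_sub_sub_cancel_right] at h2

theorem main3 (c : CycK p K M) (r : M) (t : (ZMod p)ˣ) (ε k : ℤ) (hr : r ≠ 0)
    (hε : ε = 1 ∨ ε = -1) (hs : c.σ t r = ε * r)
    (hv : c.P0.valuation M r = WithZero.exp k) :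
    ((t ^ k : (ZMod p)ˣ) : ZMod p) = ε := by
  have hpp : p.Prime := Fact.out
  obtain ⟨w, hw⟩ := exists_w c
  have vπ : c.P0.intValuation (1 - w) = WithZero.exp (-(1 : ℤ)) := by
    rw [← c.P0.valuation_of_algebraMap (K := M)]
    change c.P0.valuation M (algebraMap (𝓞 M) M (1 - w)) = WithZero.exp (-(1 : ℤ))
    rw [map_sub, map_one, hw]
    exact c.val_z
  have hπP : (1 - w) ∈ c.P0.asIdeal := by
    rw [← c.P0.intValuation_lt_one_iff_mem, vπ, ← WithZero.exp_zero, WithZero.exp_lt_exp]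
    norm_num
  have hπ0 : (1 - w) ≠ 0 := by
    intro h
    rw [h, map_zero] at vπ
    exact WithZero.exp_ne_zero vπ.symm
  have mkw : Ideal.Quotient.mk c.P0.asIdeal w = 1 := by
    have := Ideal.Quotient.eq_zero_iff_mem.2 hπP
    rw [map_sub, map_one, sub_eq_zero] at this
    exact this.symm
  obtain ⟨a, b, hb, hab⟩ := IsFractionRing.div_surjective (A := 𝓞 M) r
  have hb0 : b ≠ 0 := nonZeroDivisors.ne_zero hb
  have ha0 : a ≠ 0 := by
    rintro rfl
    apply hr
    rw [← hab]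
    simp
  obtain ⟨i, hi⟩ := exists_val c.P0 a ha0
  obtain ⟨j, hj⟩ := exists_val c.P0 b hb0
  obtain ⟨D, A, hD, hA, hAD⟩ := frac c.P0 a (1 - w) i vπ hi
  obtain ⟨F, B, hF, hB, hBF⟩ := frac c.P0 b (1 - w) j vπ hj
  have va : c.P0.valuation M (algebraMap (𝓞 M) M a) = WithZero.exp (-(i : ℤ)) := by
    exact (c.P0.valuation_of_algebraMap a).trans hi
  have vb : c.P0.valuation M (algebraMap (𝓞 M) M b) = WithZero.exp (-(j : ℤ)) := by
    exact (c.P0.valuation_of_algebraMap b).trans hj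
  have hk : k = -(i : ℤ) - -(j : ℤ) := by
    rw [← hab, map_div₀, va, vb, ← WithZero.exp_sub] at hv
    exact (WithZero.exp_injective hv).symm
  -- the equation in the ring of integers
  have e1 : rs c t a * b = ε * a * rs c t b := by
    apply RingOfIntegers.coe_injective
    have hbE : algebraMap (𝓞 M) M b ≠ 0 := by
      rw [Ne, FaithfulSMul.algebraMap_eq_zero_iff]
      exact hb0
    have hb' : c.σ t (algebraMap (𝓞 M) M b) ≠ 0 := by
      rw [Ne, map_eq_zero]
      exact hbE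
    rw [map_mul, map_mul, map_mul, map_intCast, rs_coe, rs_coe]
    rw [← hab, map_div₀, div_eq_iff hb'] at hs
    rw [hs]
    field_simp
  have hrw : rs c t w = w ^ (t : ZMod p).val := by
    apply RingOfIntegers.coe_injective
    rw [rs_coe, hw, c.σ_z, map_pow, hw]
  have e2 : rs c t (1 - w) = (1 - w) * ∑ s ∈ Finset.range (t : ZMod p).val, w ^ s := by
    rw [map_sub, map_one, hrw, mul_neg_geom_sum]
  set S : 𝓞 M := ∑ s ∈ Finset.range (t : ZMod p).val, w ^ s with hS
  have f1 : rs c t (1 - w) ^ i * rs c t A = rs c t a * rs c t D := by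
    rw [← map_pow, ← map_mul, ← map_mul, hAD]
  have f2 : rs c t (1 - w) ^ j * rs c t B = rs c t b * rs c t F := by
    rw [← map_pow, ← map_mul, ← map_mul, hBF]
  rw [e2, mul_pow] at f1 f2
  have e3 : S ^ i * rs c t A * B * (D * rs c t F) = ε * A * S ^ j * rs c t B * (F * rs c t D) := by
    have h1 : (1 - w) ^ (i + j) ≠ 0 := pow_ne_zero _ hπ0
    apply mul_left_cancel₀ h1
    calc (1 - w) ^ (i + j) * (S ^ i * rs c t A * B * (D * rs c t F))
        = ((1 - w) ^ i * S ^ i * rs c t A) * ((1 - w) ^ j * B) * (D * rs c t F) := by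
          rw [pow_add]; ring
      _ = (rs c t a * rs c t D) * (b * F) * (D * rs c t F) := by rw [f1, hBF]
      _ = (rs c t a * b) * (rs c t D * F * D * rs c t F) := by ring
      _ = (ε * a * rs c t b) * (rs c t D * F * D * rs c t F) := by rw [e1]
      _ = ε * (a * D) * (rs c t b * rs c t F) * (F * rs c t D) := by ring
      _ = ε * ((1 - w) ^ i * A) * ((1 - w) ^ j * S ^ j * rs c t B) * (F * rs c t D) := by
          rw [f2, hAD]
      _ = (1 - w) ^ (i + j) * (ε * A * S ^ j * rs c t B * (F * rs c t D)) := by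
          rw [pow_add]; ring
  have mS : Ideal.Quotient.mk c.P0.asIdeal S = ((t : ZMod p).val : 𝓞 M ⧸ c.P0.asIdeal) := by
    rw [hS, map_sum]
    simp [mkw]
  have e4 := congrArg (Ideal.Quotient.mk c.P0.asIdeal) e3
  have : c.P0.asIdeal.IsPrime := c.P0.isPrime
  have nA : Ideal.Quotient.mk c.P0.asIdeal A ≠ 0 := fun h => hA (Ideal.Quotient.eq_zero_iff_mem.1 h)
  have nB : Ideal.Quotient.mk c.P0.asIdeal B ≠ 0 := fun h => hB (Ideal.Quotient.eq_zero_iff_mem.1 h)
  have nD : Ideal.Quotient.mk c.P0.asIdeal D ≠ 0 := fun h => hD (Ideal.Quotient.eq_zero_iff_mem.1 h)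
  have nF : Ideal.Quotient.mk c.P0.asIdeal F ≠ 0 := fun h => hF (Ideal.Quotient.eq_zero_iff_mem.1 h)
  simp only [map_mul, map_pow, mS, mk_rs, map_intCast] at e4
  have e5 : (((t : ZMod p).val : 𝓞 M ⧸ c.P0.asIdeal)) ^ i =
      ε * (((t : ZMod p).val : 𝓞 M ⧸ c.P0.asIdeal)) ^ j := by
    apply mul_right_cancel₀ (mul_ne_zero (mul_ne_zero nA nB) (mul_ne_zero nD nF))
    linear_combination e4
  have e6 : (p : ℤ) ∣ ((t : ZMod p).val : ℤ) ^ i - ε * ((t : ZMod p).val : ℤ) ^ j := by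
    by_contra h
    apply int_notMem c.P0.asIdeal c.P0.isPrime p hpp c.mem _ h
    rw [← Ideal.Quotient.eq_zero_iff_mem]
    push_cast
    rw [map_sub, map_mul, map_pow, map_pow, map_natCast, map_intCast, e5, sub_self]
  have e7 : (t : ZMod p) ^ i = ε * (t : ZMod p) ^ j := by
    have h1 := (ZMod.intCast_zmod_eq_zero_iff_dvd _ p).2 e6
    push_cast at h1
    rw [ZMod.natCast_zmod_val, sub_eq_zero] at h1
    exact h1
  rw [hk]
  have e8 : ((t ^ (-(i : ℤ) - -(j : ℤ)) : (ZMod p)ˣ) : ZMod p) * (t : ZMod p) ^ i =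
      (t : ZMod p) ^ j := by
    rw [← Units.val_pow_eq_pow_val, ← Units.val_pow_eq_pow_val, ← Units.val_mul, ← zpow_natCast,
      ← zpow_add, ← zpow_natCast]
    congr 2
    ring
  have hj0 : (t : ZMod p) ^ j ≠ 0 := pow_ne_zero _ t.ne_zero
  apply mul_right_cancel₀ hj0
  rw [e7] at e8
  rcases hε with rfl | rfl
  · push_cast at e8 ⊢
    linear_combination e8
  · push_cast at e8 ⊢
    linear_combination -e8

end

theorem mainKRAM : S_KRAM := by
  intro p _ _ K M _ _ _ _ _ c r t ε k hr hε hs hv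
  exact main3 c r t ε k hr hε hs hv

end Pool.Agent.Y693.WQ
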